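import Pool.Agent.Helper21_SEP.Kqq

/-!
# MP_ff6f12_co, squad SEP: module DDD
-/

set_option autoImplicit false

open SimpleGraph

namespace Pool.Agent.SEP60.H21

open Pool.Agent.RS80 Pool.Agent.RS81 Pool.Agent.SEP60

variable {V : Type}

/-- The `δ`-subsets of the `2 δ - 1` points. -/
abbrev Idx (δ : ℕ) : Type := {T : Finset (Fin (2 * δ - 1)) // T.card = δ}

/-- The vertices: `2 δ - 1` points and, for every `δ`-subset, the vertices of `B` outside the
closed neighbourhood of `u`. -/
abbrev KV (B : SimpleGraph V) (u : V) (δ : ℕ) : Type :=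
  Fin (2 * δ - 1) ⊕ (Idx δ × {w : V // w ≠ u ∧ ¬ B.Adj u w})

/-- Copies of `B - u` glued along the points. -/
def RD (B : SimpleGraph V) (u : V) (δ : ℕ) (e : Idx δ → V → Fin (2 * δ - 1)) :
    SimpleGraph (KV B u δ) where
  Adj x y := match x, y with
    | .inl s, .inr p => ∃ x, B.Adj u x ∧ e p.1 x = s ∧ B.Adj x p.2.1
    | .inr p, .inl s => ∃ x, B.Adj u x ∧ e p.1 x = s ∧ B.Adj x p.2.1
    | .inr p, .inr q => p.1 = q.1 ∧ B.Adj p.2.1 q.2.1
    | .inl _, .inl _ => False
  symm := ⟨by
    rintro (s | p) (t | q) h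
    · exact h
    · exact h
    · exact h
    · exact ⟨h.1.symm, h.2.symm⟩⟩
  loopless := ⟨by
    rintro (s | p) h
    · exact h
    · exact B.loopless.irrefl _ h.2⟩

section

variable {B : SimpleGraph V} {u : V} {δ : ℕ} {e : Idx δ → V → Fin (2 * δ - 1)}

/-- The colouring. -/
def κD (κ : V → Bool) : KV B u δ → Bool
  | .inl _ => true
  | .inr p => decide (κ p.2.1 ≠ κ u)

theorem rd_col {κ : V → Bool} (hκ : ∀ x y, B.Adj x y → κ x ≠ κ y) (x y : KV B u δ)
    (h : (RD B u δ e).Adj x y) : κD κ x ≠ κD κ y := by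
  have key : ∀ a b c : Bool, a ≠ b → b ≠ c → (true : Bool) ≠ decide (c ≠ a) := by decide
  have key2 : ∀ a b c : Bool, b ≠ c → decide (b ≠ a) ≠ decide (c ≠ a) := by decide
  rcases x with s | p <;> rcases y with t | q
  · exact absurd h (fun h => h)
  · obtain ⟨x, h1, -, h3⟩ := h
    exact key _ _ _ (hκ _ _ h1) (hκ _ _ h3)
  · obtain ⟨x, h1, -, h3⟩ := h
    exact (key _ _ _ (hκ _ _ h1) (hκ _ _ h3)).symm
  · exact key2 _ _ _ (hκ _ _ h.2)

/-- `x` lies in the copy of the index `T`. -/
def In (T : Idx δ) : KV B u δ → Prop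
  | .inl s => s ∈ T.1
  | .inr p => p.1 = T

/-- `x` is an inner vertex of the copy of the index `T`. -/
def Inn (T : Idx δ) : KV B u δ → Prop
  | .inl _ => False
  | .inr p => p.1 = T

theorem inn_in {T : Idx δ} {x : KV B u δ} (h : Inn T x) : In T x := by
  rcases x with s | p
  · exact h.elim
  · exact h

/-- the neighbours of the inner vertices -/
theorem inn_adj (he : ∀ T x, B.Adj u x → e T x ∈ T.1) {T : Idx δ} {x y : KV B u δ}
    (h : Inn T x) (hxy : (RD B u δ e).Adj x y) : In T y := by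
  rcases x with s | p
  · exact h.elim
  rcases y with t | q
  · obtain ⟨x, h1, h2, -⟩ := hxy
    show t ∈ T.1
    have h' : p.1 = T := h
    rw [← h2, h']
    exact he T x h1
  · have h' : p.1 = T := h
    show q.1 = T
    rw [← h', hxy.1]

/-- (A): a copy of `B` does not lie in one part. -/
theorem not_all_in [Finite V] (hes : ∀ T, ∀ s ∈ T.1, ∃ x, B.Adj u x ∧ e T x = s) (f : Copy B (RD B u δ e)) (T : Idx δ)
    (h : ∀ v, In T (f v)) : False := by
  classical
  -- the vertices of `B` other than `u`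
  have h1 : ∀ v, ∃ w, w ≠ u ∧ ((B.Adj u w ∧ f v = .inl (e T w)) ∨
      ∃ hw : w ≠ u ∧ ¬ B.Adj u w, f v = .inr (T, ⟨w, hw⟩)) := by
    intro v
    have h2 := h v
    rcases h3 : f v with s | ⟨T', w, hw⟩
    · rw [h3] at h2
      obtain ⟨x, hx, hxs⟩ := hes T s h2
      exact ⟨x, hx.ne', Or.inl ⟨hx, by rw [hxs]⟩⟩
    · rw [h3] at h2
      have h4 : T' = T := h2
      subst h4
      exact ⟨w, hw.1, Or.inr ⟨hw, rfl⟩⟩
  choose ψ hψ1 hψ2 using h1
  have hinj : Function.Injective ψ := by
    intro v w hvw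
    apply f.injective
    rcases hψ2 v with ⟨h3, h4⟩ | ⟨h3, h4⟩ <;> rcases hψ2 w with ⟨h5, h6⟩ | ⟨h5, h6⟩
    · exact h4.trans ((by rw [hvw] : (Sum.inl (e T (ψ v)) : KV B u δ) = .inl (e T (ψ w))).trans
        h6.symm)
    · exact absurd (hvw ▸ h3) h5.2
    · exact absurd (hvw.symm ▸ h5) h3.2
    · refine h4.trans (Eq.trans ?_ h6.symm)
      simp only [hvw]
  obtain ⟨v, hv⟩ := Finite.injective_iff_surjective.1 hinj u
  exact hψ1 v hv

/-- the case in which the other side goes to the points -/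
theorem case_one [Finite V] {κ : V → Bool} (hκ : ∀ x y, B.Adj x y → κ x ≠ κ y)
    (hei : ∀ T, Set.InjOn (e T) (B.neighborSet u))
    (hem : ∀ T x, B.Adj u x → e T x ∈ T.1)
    (hes : ∀ T, ∀ s ∈ T.1, ∃ x, B.Adj u x ∧ e T x = s)
    (hd : ∀ v, δ ≤ (B.neighborSet v).ncard) (hu : (B.neighborSet u).ncard = δ)
    (hX : ∀ v, κ v ≠ κ u → δ + 1 ≤ (B.neighborSet v).ncard)
    (hδ : 1 ≤ δ) (hq : {v | κ v = κ u}.ncard ≤ 2 * δ - 1) (f : Copy B (RD B u δ e))
    (hY : ∀ v, κ v = κ u → ∃ T, Inn T (f v)) : False := by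
  classical
  have : Nonempty (Idx δ) := ⟨(hY u rfl).choose⟩
  have : Nonempty (Fin (2 * δ - 1)) := ⟨⟨0, by omega⟩⟩
  have hnb : ∀ x y, B.Adj x y → κ x ≠ κ u → κ y = κ u := by
    intro x y hxy hx
    have key : ∀ a b c : Bool, a ≠ b → a ≠ c → b = c := by decide
    exact key _ _ _ (hκ x y hxy) hx
  choose! Ty hTy using hY
  by_cases hS : ∀ x, κ x ≠ κ u → ∃ s, f x = .inl s
  · -- all of the other side goes to the points
    choose! σ hσ using hS
    have hNu : ∀ x, B.Adj u x → κ x ≠ κ u := fun x hx => (hκ u x hx).symm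
    let TT : Finset (Fin (2 * δ - 1)) := (Set.toFinite (σ '' B.neighborSet u)).toFinset
    have hσi : Set.InjOn σ (B.neighborSet u) := by
      intro x hx y hy hxy
      apply f.injective
      exact (hσ x (hNu x hx)).trans ((by rw [hxy] : (Sum.inl (σ x) : KV B u δ) = .inl (σ y)).trans
        (hσ y (hNu y hy)).symm)
    have hTTc : TT.card = δ := by
      have h := hσi.ncard_image
      rw [hu, Set.ncard_eq_toFinset_card _ (Set.toFinite _)] at h
      exact h
    let T : Idx δ := ⟨TT, hTTc⟩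
    let M : Set V := {y | ∀ x, B.Adj u x → B.Adj x y}
    have hMκ : ∀ y ∈ M, κ y = κ u := by
      intro y hy
      obtain ⟨x, hx⟩ : (B.neighborSet u).Nonempty := by
        rw [← Set.ncard_pos (Set.toFinite _), hu]
        omega
      exact hnb x y (hy x hx) (hNu x hx)
    have h1 : ∀ y ∈ M, ∃ w ∈ M, w ≠ u ∧ ∃ hw, f y = .inr (T, ⟨w, hw⟩) := by
      intro y hy
      have h2 := hTy y (hMκ y hy)
      rcases h3 : f y with s | ⟨T', w, hw⟩
      · rw [h3] at h2
        exact h2.elim
      have h4 : ∀ x, B.Adj u x → ∃ z, B.Adj u z ∧ e T' z = σ x ∧ B.Adj z w := by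
        intro x hx
        have h5 : (RD B u δ e).Adj (f x) (f y) := f.toHom.map_adj (hy x hx)
        rw [h3, hσ x (hNu x hx)] at h5
        exact h5
      have h5 : TT ⊆ T'.1 := by
        intro s hs
        obtain ⟨x, hx, rfl⟩ := (Set.Finite.mem_toFinset _).1 hs
        obtain ⟨z, hz, hzx, -⟩ := h4 x hx
        rw [← hzx]
        exact hem T' z hz
      have h6 : TT = T'.1 := Finset.eq_of_subset_of_card_le h5 (by rw [hTTc, T'.2])
      have h7 : T' = T := Subtype.ext h6.symm
      subst h7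
      refine ⟨w, ?_, hw.1, hw, rfl⟩
      intro x hx
      have h8 : e T x ∈ TT := hem T x hx
      obtain ⟨x', hx', hxx'⟩ := (Set.Finite.mem_toFinset _).1 h8
      obtain ⟨z, hz, hzx, hzw⟩ := h4 x' hx'
      have h9 : z = x := hei T hz hx (hzx.trans hxx')
      rw [← h9]
      exact hzw
    choose! ψ hψM hψu hψ using h1
    have hmap : ψ '' M ⊆ M \ {u} := by
      rintro _ ⟨y, hy, rfl⟩
      exact ⟨hψM y hy, hψu y hy⟩
    have hinj : Set.InjOn ψ M := by
      intro y hy y' hy' hyy
      apply f.injective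
      obtain ⟨hw, h2⟩ := hψ y hy
      obtain ⟨hw', h3⟩ := hψ y' hy'
      refine h2.trans (Eq.trans ?_ h3.symm)
      simp only [hyy]
    have huM : u ∈ M := fun x hx => hx.symm
    have h2 := Set.ncard_le_ncard hmap (Set.toFinite _)
    rw [hinj.ncard_image] at h2
    have h3 := Set.ncard_sdiff_singleton_lt_of_mem huM (Set.toFinite _)
    omega
  · push Not at hS
    obtain ⟨x0, hx0, hx0s⟩ := hS
    obtain ⟨T0, hT0⟩ : ∃ T, Inn T (f x0) := by
      rcases h1 : f x0 with s | p
      · exact absurd h1 (hx0s s)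
      · exact ⟨p.1, rfl⟩
    let Y0 : Set V := {y | κ y = κ u ∧ Inn T0 (f y)}
    have hN0 : B.neighborSet x0 ⊆ Y0 := by
      intro y hy
      have h1 := hnb x0 y hy hx0
      refine ⟨h1, ?_⟩
      have h2 := inn_adj hem hT0 (f.toHom.map_adj hy)
      have h3 := hTy y h1
      rcases h4 : f y with s | p
      · rw [h4] at h3
        exact h3.elim
      · have h5 : In T0 (f y) := h2
        rw [h4] at h5
        exact h5
    have hY0 : δ + 1 ≤ Y0.ncard :=
      (hX x0 hx0).trans (Set.ncard_le_ncard hN0 (Set.toFinite _))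
    have hYd : ({v | κ v = κ u} \ Y0).ncard + Y0.ncard = {v | κ v = κ u}.ncard :=
      Set.ncard_sdiff_add_ncard_of_subset (fun y hy => hy.1) (Set.toFinite _)
    have hXin : ∀ x, κ x ≠ κ u → In T0 (f x) := by
      intro x hx
      obtain ⟨y, hy, hy0⟩ : ∃ y, B.Adj x y ∧ y ∈ Y0 := by
        by_contra hcon
        push Not at hcon
        have h1 : B.neighborSet x ⊆ {v | κ v = κ u} \ Y0 := fun y hy =>
          ⟨hnb x y hy hx, hcon y hy⟩
        have h2 := Set.ncard_le_ncard h1 (Set.toFinite _)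
        have h3 := hX x hx
        omega
      exact inn_adj hem hy0.2 (f.toHom.map_adj hy.symm)
    have hYin : ∀ y, κ y = κ u → Ty y = T0 := by
      intro y hy
      by_contra hne
      have h1 : ∀ x, B.Adj y x → ∃ s, s ∈ (Ty y).1 ∩ T0.1 ∧ f x = .inl s := by
        intro x hx
        have h2 := inn_adj hem (hTy y hy) (f.toHom.map_adj hx)
        have h3 := hXin x (fun h => hκ y x hx (hy.trans h.symm))
        rcases h4 : f x with s | p
        · have h2' : In (Ty y) (f x) := h2
          rw [h4] at h2' h3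
          exact ⟨s, Finset.mem_inter.2 ⟨h2', h3⟩, rfl⟩
        · have h2' : In (Ty y) (f x) := h2
          rw [h4] at h2' h3
          have h5 : p.1 = Ty y := h2'
          have h6 : p.1 = T0 := h3
          exact absurd (h5.symm.trans h6) hne
      choose! σ hσ1 hσ2 using h1
      have h2 : σ '' B.neighborSet y ⊆ (((Ty y).1 ∩ T0.1 : Finset _) : Set (Fin (2 * δ - 1))) := by
        rintro _ ⟨x, hx, rfl⟩
        exact hσ1 x hx
      have h3 : Set.InjOn σ (B.neighborSet y) := by
        intro x hx x' hx' hxx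
        apply f.injective
        exact (hσ2 x hx).trans ((by rw [hxx] : (Sum.inl (σ x) : KV B u δ) = .inl (σ x')).trans
          (hσ2 x' hx').symm)
      have h4 := Set.ncard_le_ncard h2 (Set.toFinite _)
      rw [h3.ncard_image, Set.ncard_coe_finset] at h4
      have h5 := hd y
      have h6 : (Ty y).1 ∩ T0.1 = (Ty y).1 := by
        apply Finset.eq_of_subset_of_card_le Finset.inter_subset_left
        rw [(Ty y).2]
        omega
      have h7 : (Ty y).1 ∩ T0.1 = T0.1 := by
        apply Finset.eq_of_subset_of_card_le Finset.inter_subset_right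
        rw [T0.2]
        omega
      exact hne (Subtype.ext (h6.symm.trans h7))
    refine not_all_in hes f T0 fun v => ?_
    by_cases hv : κ v = κ u
    · have h1 := hTy v hv
      rw [hYin v hv] at h1
      exact inn_in h1
    · exact hXin v hv

/-- the case in which the other side goes to inner vertices -/
theorem case_two [Finite V] {κ : V → Bool} (hκ : ∀ x y, B.Adj x y → κ x ≠ κ y)
    (hem : ∀ T x, B.Adj u x → e T x ∈ T.1)
    (hes : ∀ T, ∀ s ∈ T.1, ∃ x, B.Adj u x ∧ e T x = s)
    (hd : ∀ v, δ ≤ (B.neighborSet v).ncard) (hu : (B.neighborSet u).ncard = δ)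
    (hX : ∀ v, κ v ≠ κ u → δ + 1 ≤ (B.neighborSet v).ncard)
    (hp : {v | κ v ≠ κ u}.ncard < 2 * δ - 1) (f : Copy B (RD B u δ e))
    (hXi : ∀ v, κ v ≠ κ u → ∃ T, Inn T (f v)) : False := by
  classical
  have hnb : ∀ x y, B.Adj x y → κ x ≠ κ u → κ y = κ u := by
    intro x y hxy hx
    have key : ∀ a b c : Bool, a ≠ b → a ≠ c → b = c := by decide
    exact key _ _ _ (hκ x y hxy) hx
  obtain ⟨x0, hx0⟩ : (B.neighborSet u).Nonempty := by
    rw [← Set.ncard_pos (Set.toFinite _), hu]
    omega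
  have hx0' : κ x0 ≠ κ u := (hκ u x0 hx0).symm
  have : Nonempty (Idx δ) := ⟨(hXi x0 hx0').choose⟩
  have : Nonempty (Fin (2 * δ - 1)) := ⟨⟨0, by omega⟩⟩
  have : Nonempty V := ⟨u⟩
  choose! Tx hTx using hXi
  -- a neighbour going to an inner vertex
  have h1 : ∀ x, κ x ≠ κ u → ∃ y, B.Adj x y ∧ Inn (Tx x) (f y) := by
    intro x hx
    by_contra hcon
    push Not at hcon
    have h2 : ∀ y, B.Adj x y → ∃ s, s ∈ (Tx x).1 ∧ f y = .inl s := by
      intro y hy
      have h3 : In (Tx x) (f y) := inn_adj hem (hTx x hx) (f.toHom.map_adj hy)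
      have h5 := hcon y hy
      rcases h4 : f y with s | p
      · rw [h4] at h3
        exact ⟨s, h3, rfl⟩
      · rw [h4] at h3 h5
        exact absurd h3 h5
    choose! σ hσ1 hσ2 using h2
    have h3 : σ '' B.neighborSet x ⊆ ((Tx x).1 : Set (Fin (2 * δ - 1))) := by
      rintro _ ⟨y, hy, rfl⟩
      exact hσ1 y hy
    have h4 : Set.InjOn σ (B.neighborSet x) := by
      intro y hy y' hy' hyy
      apply f.injective
      exact (hσ2 y hy).trans ((by rw [hyy] : (Sum.inl (σ y) : KV B u δ) = .inl (σ y')).trans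
        (hσ2 y' hy').symm)
    have h5 := Set.ncard_le_ncard h3 (Set.toFinite _)
    rw [h4.ncard_image, Set.ncard_coe_finset, (Tx x).2] at h5
    have h6 := hX x hx
    omega
  choose! yx hyx1 hyx2 using h1
  -- the neighbours of this neighbour
  have h2 : ∀ x, κ x ≠ κ u → ∀ z, B.Adj (yx x) z → κ z ≠ κ u ∧ Tx z = Tx x := by
    intro x hx z hz
    have h3 : κ z ≠ κ u := fun h => hκ _ _ hz ((hnb _ _ (hyx1 x hx) hx).trans h.symm)
    refine ⟨h3, ?_⟩
    have h4 : In (Tx x) (f z) := inn_adj hem (hyx2 x hx) (f.toHom.map_adj hz)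
    have h5 := hTx z h3
    rcases h6 : f z with s | p
    · rw [h6] at h5
      exact h5.elim
    · rw [h6] at h4 h5
      have h7 : p.1 = Tx x := h4
      have h8 : p.1 = Tx z := h5
      exact h8.symm.trans h7
  have h3 : ∀ x x', κ x ≠ κ u → κ x' ≠ κ u → Tx x = Tx x' := by
    intro x x' hx hx'
    by_contra hne
    have h4 : Disjoint (B.neighborSet (yx x)) (B.neighborSet (yx x')) := by
      rw [Set.disjoint_left]
      intro z hz hz'
      exact hne ((h2 x hx z hz).2.symm.trans (h2 x' hx' z hz').2)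
    have h5 := Set.ncard_union_eq h4 (Set.toFinite _) (Set.toFinite _)
    have h6 : B.neighborSet (yx x) ∪ B.neighborSet (yx x') ⊆ {v | κ v ≠ κ u} := by
      rintro z (hz | hz)
      · exact (h2 x hx z hz).1
      · exact (h2 x' hx' z hz).1
    have h7 := Set.ncard_le_ncard h6 (Set.toFinite _)
    have h8 := hd (yx x)
    have h9 := hd (yx x')
    omega
  refine not_all_in hes f (Tx x0) fun v => ?_
  by_cases hv : κ v = κ u
  · obtain ⟨z, hz⟩ : (B.neighborSet v).Nonempty := by
      rw [← Set.ncard_pos (Set.toFinite _)]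
      have := hd v
      omega
    have hz' : κ z ≠ κ u := fun h => hκ v z hz (hv.trans h.symm)
    have h4 := hTx z hz'
    rw [h3 z x0 hz' hx0'] at h4
    exact inn_adj hem h4 (f.toHom.map_adj (SimpleGraph.Adj.symm hz))
  · have h4 := hTx v hv
    rw [h3 v x0 hv hx0'] at h4
    exact inn_in h4

/-- the graph is connected -/
theorem rd_conn [Finite V] (hB : TwoConn B) (hδ : 1 ≤ δ)
    (hes : ∀ T, ∀ s ∈ T.1, ∃ x, B.Adj u x ∧ e T x = s)
    (hind : ∀ x y, B.Adj u x → B.Adj u y → ¬ B.Adj x y) :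
    (RD B u δ e).Connected := by
  classical
  -- the map of `B - u` to the copy of index `T`
  let g : Idx δ → V → KV B u δ := fun T v =>
    if h : v ≠ u ∧ ¬ B.Adj u v then .inr (T, ⟨v, h⟩) else .inl (e T v)
  have hg1 : ∀ T v, B.Adj u v → g T v = .inl (e T v) := fun T v hv =>
    dif_neg (fun h => h.2 hv)
  have hg2 : ∀ T v (h : v ≠ u ∧ ¬ B.Adj u v), g T v = .inr (T, ⟨v, h⟩) := fun T v h => dif_pos h
  have hg : ∀ T v w, v ≠ u → w ≠ u → B.Adj v w → (RD B u δ e).Adj (g T v) (g T w) := by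
    intro T v w hv hw hvw
    by_cases h1 : B.Adj u v
    · by_cases h2 : B.Adj u w
      · exact absurd hvw (hind v w h1 h2)
      · rw [hg1 T v h1, hg2 T w ⟨hw, h2⟩]
        exact ⟨v, h1, rfl, hvw⟩
    · by_cases h2 : B.Adj u w
      · rw [hg2 T v ⟨hv, h1⟩, hg1 T w h2]
        exact ⟨w, h2, rfl, hvw.symm⟩
      · rw [hg2 T v ⟨hv, h1⟩, hg2 T w ⟨hw, h2⟩]
        exact ⟨rfl, hvw⟩
  obtain ⟨x0, hx0⟩ := hB.exists_adj u
  have hr : ∀ T v, v ≠ u → (RD B u δ e).Reachable (g T v) (g T x0) := by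
    intro T v hv
    have h := prop_of_preconnected (hB.2.2 u).preconnected
      (fun x => (RD B u δ e).Reachable (g T x.1) (g T x0))
      (fun a b hab ha => ((hg T a.1 b.1 a.2 b.2 hab).symm.reachable).trans ha)
      (u := ⟨x0, hx0.ne'⟩) (SimpleGraph.Reachable.refl _) ⟨v, hv⟩
    exact h
  have hTT : ∀ T T', (RD B u δ e).Reachable (g T x0) (g T' x0) := by
    intro T T'
    obtain ⟨s, hs⟩ : (T.1 ∩ T'.1).Nonempty := by
      rw [Finset.nonempty_iff_ne_empty]
      intro h
      have h1 := Finset.card_union_add_card_inter T.1 T'.1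
      rw [h, T.2, T'.2, Finset.card_empty] at h1
      have h2 := Finset.card_le_univ (T.1 ∪ T'.1)
      rw [Fintype.card_fin] at h2
      omega
    rw [Finset.mem_inter] at hs
    obtain ⟨x, hx, hxs⟩ := hes T s hs.1
    obtain ⟨x', hx', hxs'⟩ := hes T' s hs.2
    have h1 : g T x = g T' x' := by rw [hg1 T x hx, hg1 T' x' hx', hxs, hxs']
    have h2 := (hr T x hx.ne').symm
    rw [h1] at h2
    exact h2.trans (hr T' x' hx'.ne')
  have hex : ∀ s : Fin (2 * δ - 1), ∃ T : Idx δ, s ∈ T.1 := by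
    intro s
    obtain ⟨T, hT1, -, hT2⟩ := Finset.exists_subsuperset_card_eq (s := {s})
      (t := (Finset.univ : Finset (Fin (2 * δ - 1)))) (n := δ) (Finset.subset_univ _)
      (by rw [Finset.card_singleton]; exact hδ)
      (by rw [Finset.card_univ, Fintype.card_fin]; omega)
    exact ⟨⟨T, hT2⟩, hT1 (Finset.mem_singleton_self s)⟩
  obtain ⟨T0, -⟩ := hex ⟨0, by omega⟩
  have key : ∀ y, (RD B u δ e).Reachable y (g T0 x0) := by
    rintro (s | ⟨T, w, hw⟩)
    · obtain ⟨T, hT⟩ := hex s
      obtain ⟨x, hx, hxs⟩ := hes T s hT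
      have h2 := hr T x hx.ne'
      rw [hg1 T x hx, hxs] at h2
      exact h2.trans (hTT T T0)
    · have h2 := hr T w hw.1
      rw [hg2 T w hw] at h2
      exact h2.trans (hTT T T0)
  have hne : Nonempty (KV B u δ) := ⟨g T0 x0⟩
  exact ⟨fun x y => (key x).trans (key y).symm⟩

end

/-- DDD. -/
theorem ddd : DddStmt := by
  classical
  intro V _ B κ u δ hB hκ hd hu hX hpq hq
  obtain ⟨x0, hx0⟩ := hB.exists_adj u
  have hNu : ∀ x, B.Adj u x → κ x ≠ κ u := fun x hx => (hκ u x hx).symm
  have hδ : 1 ≤ δ := by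
    rw [← hu]
    exact (Set.ncard_pos (Set.toFinite _)).2 ⟨x0, hx0⟩
  have hnF : Nonempty (Fin (2 * δ - 1)) := ⟨⟨0, by omega⟩⟩
  have hind : ∀ x y, B.Adj u x → B.Adj u y → ¬ B.Adj x y := by
    intro x y hx hy hxy
    have key : ∀ a b c : Bool, a ≠ c → b ≠ c → a = b := by decide
    exact hκ x y hxy (key _ _ _ (hNu x hx) (hNu y hy))
  have hbij : ∀ T : Idx δ, ∃ e : V → Fin (2 * δ - 1),
      Set.BijOn e (B.neighborSet u) (T.1 : Set (Fin (2 * δ - 1))) := by
    intro T
    apply (Set.toFinite (B.neighborSet u)).exists_bijOn_of_encard_eq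
    rw [← (Set.toFinite (B.neighborSet u)).cast_ncard_eq,
      ← (Set.toFinite (T.1 : Set (Fin (2 * δ - 1)))).cast_ncard_eq, hu, Set.ncard_coe_finset, T.2]
  choose e he using hbij
  have hei : ∀ T, Set.InjOn (e T) (B.neighborSet u) := fun T => (he T).injOn
  have hem : ∀ T x, B.Adj u x → e T x ∈ T.1 := fun T x hx => (he T).mapsTo hx
  have hes : ∀ T, ∀ s ∈ T.1, ∃ x, B.Adj u x ∧ e T x = s := fun T s hs => (he T).surjOn hs
  refine ⟨KV B u δ, inferInstance, RD B u δ e, κD κ, Set.range Sum.inl,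
    rd_conn hB hδ hes hind, ?_, rd_col hκ, ?_, ?_, ?_⟩
  · rintro ⟨f⟩
    have h1 := col_unique hB.2.1.preconnected hκ
      (fun x y h => rd_col hκ (f x) (f y) (f.toHom.map_adj h)) u
    have key : ∀ y : KV B u δ, κD κ y = false → ∃ T, Inn T y := by
      rintro (s | p) h
      · exact absurd h (by simp [κD])
      · exact ⟨p.1, rfl⟩
    rcases h2 : κD κ (f u) with _ | _
    · refine case_one hκ hei hem hes hd hu hX hδ hq f fun v hv => key _ ?_
      rw [← h2]
      exact (h1 v).2 hv
    · refine case_two hκ hem hes hd hu hX (by omega) f fun v hv => key _ ?_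
      have h3 := fun h => hv ((h1 v).1 h)
      rw [h2] at h3
      exact Bool.eq_false_of_not_eq_true h3
  · rintro _ ⟨s, rfl⟩
    rfl
  · rw [← Set.image_univ, Set.ncard_image_of_injective _ Sum.inl_injective, Set.ncard_univ,
      Nat.card_eq_fintype_card, Fintype.card_fin]
  · intro T hT hTc
    let T' : Set (Fin (2 * δ - 1)) := Sum.inl ⁻¹' T
    have hTi : T = Sum.inl '' T' := by
      ext y
      constructor
      · intro hy
        obtain ⟨s, rfl⟩ := hT hy
        exact ⟨s, hy, rfl⟩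
      · rintro ⟨s, hs, rfl⟩
        exact hs
    have hTc' : T'.toFinset.card = δ := by
      rw [← Set.ncard_eq_toFinset_card']
      rw [hTi, Set.ncard_image_of_injective _ Sum.inl_injective] at hTc
      exact hTc
    let t : Idx δ := ⟨T'.toFinset, hTc'⟩
    refine cone_copy (u := u) (fun v => if h : v ≠ u ∧ ¬ B.Adj u v then Sum.inr (t, ⟨v, h⟩)
      else Sum.inl (e t v)) ?_ ?_ ?_
    · intro v w hv hw h
      by_cases h1 : B.Adj u v
      · by_cases h2 : B.Adj u w
        · simp only [h1, h2, not_true_eq_false, and_false, dite_false, Sum.inl.injEq] at h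
          exact hei t h1 h2 h
        · simp only [h1, h2, hw, not_true_eq_false, and_false, dite_false, ne_eq,
            not_false_eq_true, and_self, dite_true] at h
          exact absurd h (by simp)
      · by_cases h2 : B.Adj u w
        · simp only [h1, h2, hv, not_true_eq_false, and_false, dite_false, ne_eq,
            not_false_eq_true, and_self, dite_true] at h
          exact absurd h (by simp)
        · simp only [h1, h2, hv, hw, ne_eq, not_false_eq_true, and_self, dite_true,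
            Sum.inr.injEq, Prod.mk.injEq, Subtype.mk.injEq, true_and] at h
          exact h
    · intro v w hv hw hvw
      by_cases h1 : B.Adj u v
      · by_cases h2 : B.Adj u w
        · exact absurd hvw (hind v w h1 h2)
        · simp only [h1, h2, hw, not_true_eq_false, and_false, dite_false, ne_eq,
            not_false_eq_true, and_self, dite_true]
          exact ⟨v, h1, rfl, hvw⟩
      · by_cases h2 : B.Adj u w
        · simp only [h1, h2, hv, not_true_eq_false, and_false, dite_false, ne_eq,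
            not_false_eq_true, and_self, dite_true]
          exact ⟨w, h2, rfl, hvw.symm⟩
        · simp only [h1, h2, hv, hw, ne_eq, not_false_eq_true, and_self, dite_true]
          exact ⟨rfl, hvw⟩
    · intro v hv
      simp only [hv, not_true_eq_false, and_false, dite_false]
      have h1 : e t v ∈ T'.toFinset := hem t v hv
      rw [Set.mem_toFinset] at h1
      exact h1

end Pool.Agent.SEP60.H21
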