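import Pool.Agent.Helper60_SEP.Stmts2

/-!
# MP_ff6f12_co, squad SEP: module KQQ
-/

set_option autoImplicit false

open SimpleGraph

namespace Pool.Agent.SEP60.H21

open Pool.Agent.RS80 Pool.Agent.RS81 Pool.Agent.SEP60

variable {V : Type}

/-- A connected graph has only one proper colouring with two colours, up to exchange. -/
theorem col_unique {B : SimpleGraph V} (hB : B.Preconnected) {κ κ' : V → Bool}
    (h : ∀ x y, B.Adj x y → κ x ≠ κ y) (h' : ∀ x y, B.Adj x y → κ' x ≠ κ' y) (u v : V) :
    κ' v = κ' u ↔ κ v = κ u := by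
  refine prop_of_preconnected hB (fun v => κ' v = κ' u ↔ κ v = κ u) ?_ (u := u)
    (iff_of_true rfl rfl) v
  intro a b hab hp
  have key : ∀ a b a' b' c c' : Bool, a ≠ b → a' ≠ b' → ((a' = c') ↔ (a = c)) →
      ((b' = c') ↔ (b = c)) := by decide
  exact key _ _ _ _ _ _ (h a b hab) (h' a b hab) hp

/-- A copy in the cone. -/
theorem cone_copy {K : Type} {B : SimpleGraph V} {R : SimpleGraph K} {T : Set K} {u : V}
    (g : V → K) (hinj : ∀ v w, v ≠ u → w ≠ u → g v = g w → v = w)
    (hadj : ∀ v w, v ≠ u → w ≠ u → B.Adj v w → R.Adj (g v) (g w))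
    (hT : ∀ v, B.Adj u v → g v ∈ T) : B ⊑ cone R T := by
  classical
  refine ⟨⟨⟨fun v => if v = u then none else some (g v), ?_⟩, ?_⟩⟩
  · intro v w hvw
    show (cone R T).Adj (if v = u then none else some (g v)) (if w = u then none else some (g w))
    by_cases hv : v = u
    · have hw : w ≠ u := fun hw => hvw.ne (hv.trans hw.symm)
      rw [if_pos hv, if_neg hw]
      exact hT w (hv ▸ hvw)
    · by_cases hw : w = u
      · rw [if_neg hv, if_pos hw]
        exact hT v (hw ▸ hvw.symm)
      · rw [if_neg hv, if_neg hw]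
        exact hadj v w hv hw hvw
  · intro v w h
    change (if v = u then none else some (g v)) = (if w = u then none else some (g w)) at h
    by_cases hv : v = u
    · by_cases hw : w = u
      · rw [hv, hw]
      · rw [if_pos hv, if_neg hw] at h
        exact absurd h (by simp)
    · by_cases hw : w = u
      · rw [if_neg hv, if_pos hw] at h
        exact absurd h (by simp)
      · rw [if_neg hv, if_neg hw, Option.some.injEq] at h
        exact hinj v w hv hw h

/-- Extension of injections. -/
theorem inj_ext {A : Type} [Finite A] [Nonempty A] {X N : Set V} (hX : X.Finite) (hN : N ⊆ X)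
    {T : Set A} (h1 : N.ncard ≤ T.ncard) (h2 : X.ncard ≤ Nat.card A) :
    ∃ g : V → A, Set.InjOn g X ∧ ∀ v ∈ N, g v ∈ T := by
  classical
  have hNf := hX.subset hN
  obtain ⟨f1, hf1, hi1⟩ := hNf.exists_injOn_of_encard_le (t := T) (by
    rw [← hNf.cast_ncard_eq, ← (Set.toFinite T).cast_ncard_eq]
    exact_mod_cast h1)
  have hc : (f1 '' N).ncard = N.ncard := hi1.ncard_image
  obtain ⟨f2, hf2, hi2⟩ := (hX.subset (Set.sdiff_subset (s := X) (t := N))).exists_injOn_of_encard_le
    (t := (f1 '' N)ᶜ) (by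
    rw [← (hX.subset (Set.sdiff_subset (s := X) (t := N))).cast_ncard_eq,
      ← (Set.toFinite (f1 '' N)ᶜ).cast_ncard_eq]
    have h3 := Set.ncard_sdiff_add_ncard_of_subset hN hX
    have h4 := Set.ncard_add_ncard_compl (f1 '' N)
    have h5 : (X \ N).ncard ≤ ((f1 '' N)ᶜ).ncard := by omega
    exact_mod_cast h5)
  refine ⟨fun v => if v ∈ N then f1 v else f2 v, ?_, ?_⟩
  · intro v hv w hw h
    change (if v ∈ N then f1 v else f2 v) = (if w ∈ N then f1 w else f2 w) at h
    by_cases h3 : v ∈ N
    · by_cases h4 : w ∈ N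
      · rw [if_pos h3, if_pos h4] at h
        exact hi1 h3 h4 h
      · rw [if_pos h3, if_neg h4] at h
        exact absurd ⟨v, h3, h⟩ (hf2 ⟨hw, h4⟩)
    · by_cases h4 : w ∈ N
      · rw [if_neg h3, if_pos h4] at h
        exact absurd ⟨w, h4, h.symm⟩ (hf2 ⟨hv, h3⟩)
      · rw [if_neg h3, if_neg h4] at h
        exact hi2 ⟨hv, h3⟩ ⟨hw, h4⟩ h
  · intro v hv
    show (if v ∈ N then f1 v else f2 v) ∈ T
    rw [if_pos hv]
    exact hf1 hv

theorem cb_adj {s t : ℕ} (i : Fin s) (j : Fin t) :
    (completeBipartiteGraph (Fin s) (Fin t)).Adj (.inl i) (.inr j) := by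
  simp [completeBipartiteGraph_adj]

theorem cb_conn {s t : ℕ} (i : Fin s) (j : Fin t) :
    (completeBipartiteGraph (Fin s) (Fin t)).Connected := by
  have key : ∀ u, (completeBipartiteGraph (Fin s) (Fin t)).Reachable u (Sum.inl i) := by
    rintro (u | u)
    · exact (cb_adj u j).reachable.trans (cb_adj i j).symm.reachable
    · exact (cb_adj i u).symm.reachable
  have hne : Nonempty (Fin s ⊕ Fin t) := ⟨Sum.inl i⟩
  exact ⟨fun u v => (key u).trans (key v).symm⟩

theorem cb_col {s t : ℕ} (x y : Fin s ⊕ Fin t)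
    (h : (completeBipartiteGraph (Fin s) (Fin t)).Adj x y) : x.isLeft ≠ y.isLeft := by
  rcases x with x | x <;> rcases y with y | y <;>
    simp [completeBipartiteGraph_adj] at h ⊢

/-- KQQ. -/
theorem kqq : KqqStmt := by
  classical
  intro V _ B κ u δ hB hκ hu hpq hq
  have hN : ∀ v, B.Adj u v → κ v ≠ κ u := fun v hv => (hκ u v hv).symm
  obtain ⟨x, hx⟩ := hB.exists_adj u
  have hp1 : 0 < {v | κ v ≠ κ u}.ncard := (Set.ncard_pos (Set.toFinite _)).2 ⟨x, hN x hx⟩
  set q := {v | κ v = κ u}.ncard with hqd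
  set p := {v | κ v ≠ κ u}.ncard with hpd
  have hq1 : 0 < q - 1 := by omega
  let i0 : Fin (q - 1) := ⟨0, hq1⟩
  have hne : Nonempty (Fin (q - 1)) := ⟨i0⟩
  obtain ⟨S', -, hS'⟩ := Set.exists_subset_card_eq (s := (Set.univ : Set (Fin (q - 1))))
    (n := 2 * δ - 1) (by rw [Set.ncard_univ, Nat.card_eq_fintype_card, Fintype.card_fin]; omega)
  refine ⟨Fin (q - 1) ⊕ Fin (q - 1), inferInstance, completeBipartiteGraph _ _, Sum.isLeft,
    Sum.inl '' S', cb_conn i0 i0, ?_, cb_col, ?_, ?_, ?_⟩
  · rintro ⟨f⟩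
    have h1 := col_unique hB.2.1.preconnected hκ
      (fun x y h => cb_col (f x) (f y) (f.toHom.map_adj h)) u
    have h2 : (f '' {v | κ v = κ u}).ncard = q := Set.ncard_image_of_injective _ f.injective
    have h3 : ∀ (side : Set (Fin (q - 1) ⊕ Fin (q - 1))), side.ncard = q - 1 →
        f '' {v | κ v = κ u} ⊆ side → False := by
      intro side hs hsub
      have := Set.ncard_le_ncard hsub (Set.toFinite _)
      omega
    rcases hfu : f u with a | a
    · apply h3 (Set.range Sum.inl)
      · rw [← Set.image_univ, Set.ncard_image_of_injective _ Sum.inl_injective, Set.ncard_univ,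
          Nat.card_eq_fintype_card, Fintype.card_fin]
      · rintro _ ⟨v, hv, rfl⟩
        have h4 := (h1 v).2 hv
        rw [hfu] at h4
        rcases hfv : f v with b | b
        · exact ⟨b, rfl⟩
        · rw [hfv] at h4
          exact absurd h4 (by simp)
    · apply h3 (Set.range Sum.inr)
      · rw [← Set.image_univ, Set.ncard_image_of_injective _ Sum.inr_injective, Set.ncard_univ,
          Nat.card_eq_fintype_card, Fintype.card_fin]
      · rintro _ ⟨v, hv, rfl⟩
        have h4 := (h1 v).2 hv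
        rw [hfu] at h4
        rcases hfv : f v with b | b
        · rw [hfv] at h4
          exact absurd h4 (by simp)
        · exact ⟨b, rfl⟩
  · rintro _ ⟨s, -, rfl⟩
    rfl
  · rw [Set.ncard_image_of_injective _ Sum.inl_injective, hS']
  · intro T hT hTc
    have hTi : T = Sum.inl '' (Sum.inl ⁻¹' T : Set (Fin (q - 1))) := by
      ext y
      constructor
      · intro hy
        obtain ⟨s, -, rfl⟩ := hT hy
        exact ⟨s, hy, rfl⟩
      · rintro ⟨s, hs, rfl⟩
        exact hs
    have hTc' : (Sum.inl ⁻¹' T : Set (Fin (q - 1))).ncard = δ := by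
      rw [← hTc]
      conv_rhs => rw [hTi]
      rw [Set.ncard_image_of_injective _ Sum.inl_injective]
    obtain ⟨g1, hg1, hg1T⟩ := inj_ext (X := {v | κ v ≠ κ u}) (N := B.neighborSet u)
      (T := (Sum.inl ⁻¹' T : Set (Fin (q - 1)))) (Set.toFinite _) (fun v hv => hN v hv)
      (by rw [hu, hTc']) (by rw [Nat.card_eq_fintype_card, Fintype.card_fin]; omega)
    have hcard : ({v | κ v = κ u} \ {u}).ncard = q - 1 := by
      rw [Set.ncard_sdiff_singleton_of_mem (show u ∈ {v | κ v = κ u} from rfl)]
    obtain ⟨g2, hg2, -⟩ := inj_ext (X := {v | κ v = κ u} \ {u}) (N := ∅)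
      (T := (∅ : Set (Fin (q - 1)))) (Set.toFinite _) (Set.empty_subset _)
      (by simp) (by rw [Nat.card_eq_fintype_card, Fintype.card_fin, hcard])
    refine cone_copy (u := u) (fun v => if κ v = κ u then Sum.inr (g2 v) else Sum.inl (g1 v))
      ?_ ?_ ?_
    · intro v w hv hw h
      by_cases h1 : κ v = κ u
      · by_cases h2 : κ w = κ u
        · simp only [if_pos h1, if_pos h2, Sum.inr.injEq] at h
          exact hg2 ⟨h1, hv⟩ ⟨h2, hw⟩ h
        · simp only [if_pos h1, if_neg h2] at h
          exact absurd h (by simp)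
      · by_cases h2 : κ w = κ u
        · simp only [if_neg h1, if_pos h2] at h
          exact absurd h (by simp)
        · simp only [if_neg h1, if_neg h2, Sum.inl.injEq] at h
          exact hg1 h1 h2 h
    · intro v w _ _ hvw
      have h0 := hκ v w hvw
      by_cases h1 : κ v = κ u
      · have h2 : κ w ≠ κ u := fun h => h0 (h1.trans h.symm)
        simp only [if_pos h1, if_neg h2]
        exact (cb_adj _ _).symm
      · have h2 : κ w = κ u := by
          have key : ∀ a b c : Bool, a ≠ b → a ≠ c → b = c := by decide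
          exact key _ _ _ h0 h1
        simp only [if_neg h1, if_pos h2]
        exact cb_adj _ _
    · intro v hv
      simp only [if_neg (hN v hv)]
      exact hg1T v hv

end Pool.Agent.SEP60.H21
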